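import Pool.Agent.H73.OW.Ker2
import Pool.Agent.H35.OW.Lab

/-!
# [H70 OW REI2] from the second Fourier expansion to enriched configurations (MP_b39724_nt, theorem OW, S3)

`EX2`: the sum over all enriched configurations with labels of two layers (`d₂ = ((0, 0), 1)`: the default). `rei2`:
`∑_f wt f Mn (∑_(ζ : Ff2 ζ, rz ζ = hx f) [Fz ζ] Hhh τ (vl τ) ζ) = EX2`. Proof: `rei_sumG` of H35/OW/Lab, `cell2`.
-/

set_option autoImplicit false

open scoped NumberField commutatorElement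
open IsDedekindDomain
open scoped Classical

noncomputable section

namespace H70.OW

open H63.MA H38.BB H38.BG H57.PC H57.BRA H77.WD H77.WE H77.PC3 H35.CF H35.UB H77.S3 H71.S3 H1.S3
  H73.S3 H73.OW H35.OW

attribute [local instance 50] Fintype.ofFinite

/-- the default of the data of a letter -/
def d₂ (S P : Type) [Group S] [Group P] [MulDistribMulAction P S] (q d : ℕ) : El2 S P q d :=
  ((0, 0), 1)

variable {K : Type} [Field K] [NumberField K] {Ω : Type} [Field Ω] [Algebra K Ω]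
  {p N : ℕ} {ζ : K} {D : RD0 K p ζ} {Q : DP K Ω} {A : GS D Ω} {P : Type} [Group P]
  {c : CL p N P} {S : Type} [Group S] [MulDistribMulAction P S] {q d : ℕ}

variable (G : SG c S) (B : SD D Q A) (X : FD A P S) (W : WF A)

/-- the sum over all enriched configurations, two layers -/
def EX2 [Fintype S] [Fintype P] [NeZero q] (T : ℝ) (Zc : Finset (Pl K))
    (hx : ∀ f : Pl K → Option (Px c), (adf G B X W T Zc f).Jf → Du S q (d + 1) × Du S q (d + 1 + 1))
    (Bf : ∀ i j : ℕ, Gr S i →+ Gr S j →+ ZMod q) (wt : (Pl K → Option (Px c)) → ℂ) : ℂ :=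
  ∑ τ : V0 B X → S, ∑ e : H73.S3.J0 X → El2 S P q d, ∑ f ∈ Cf Zc (Elb2 c S q d),
    wt (lf2 f) * AX2 G B X W T Zc hx (xt0 B X τ) (xeG (d₂ S P q d) X e) f *
      FX2 G B X W T Zc hx Bf (xt0 B X τ) (xeG (d₂ S P q d) X e) f

/-- the term of a configuration -/
def Gx2 [Fintype S] (T : ℝ) (Zc : Finset (Pl K))
    (hx : ∀ f : Pl K → Option (Px c), (adf G B X W T Zc f).Jf → Du S q (d + 1) × Du S q (d + 1 + 1))
    (Bf : ∀ i j : ℕ, Gr S i →+ Gr S j →+ ZMod q) (f : Pl K → Option (Px c)) (t : Pl K → S)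
    (e : Pl K ⊕ Fin A.g → El2 S P q d) : ℂ :=
  (if (adf G B X W T Zc f).Ff2 ((adf G B X W T Zc f).et2 e) ∧
    (adf G B X W T Zc f).rz ((adf G B X W T Zc f).et2 e) = hx f then
    (adf G B X W T Zc f).Hhh t (fun j => (e j).2) ((adf G B X W T Zc f).et2 e) /
      (Fintype.card S : ℂ) ^ (adf G B X W T Zc f).Vf.card else 0) *
  (if (adf G B X W T Zc f).rz ((adf G B X W T Zc f).et2 e) = hx f ∧
    (adf G B X W T Zc f).Fz Bf t ((adf G B X W T Zc f).et2 e) then
    (adf G B X W T Zc f).Kr2 e ((adf G B X W T Zc f).vl t) else 0)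

section ee

variable {S' P' : Type} [Group S'] [Group P'] [MulDistribMulAction P' S'] {J V : Type}
  (Y : AD S' P' J V) (θ : Y.Jf → Dz S' q d × Dz S' q (d + 1)) (x₀ : Y.Jf → SP S' P')

theorem et2_ee : Y.et2 (eeG (d₂ S' P' q d) Y fun j => (θ j, x₀ j)) = θ := by
  funext j
  unfold AD.et2 eeG
  rw [dif_pos j.2]

theorem ee_xj2 : (fun j => (eeG (d₂ S' P' q d) Y (fun j => (θ j, x₀ j)) j).2) = Y.xj x₀ := by
  funext j
  unfold eeG AD.xj
  split_ifs <;> rfl

theorem ee_je2 : (eeG (d₂ S' P' q d) Y fun j => (θ j, x₀ j)) = Y.je2 θ x₀ := rfl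

end ee

theorem gx2_eq [Fintype S] (T : ℝ) (Zc : Finset (Pl K))
    (hx : ∀ f : Pl K → Option (Px c), (adf G B X W T Zc f).Jf → Du S q (d + 1) × Du S q (d + 1 + 1))
    (Bf : ∀ i j : ℕ, Gr S i →+ Gr S j →+ ZMod q) (f : Pl K → Option (Px c)) (t : Pl K → S)
    (θ : (adf G B X W T Zc f).Jf → Dz S q d × Dz S q (d + 1))
    (x₀ : (adf G B X W T Zc f).Jf → SP S P) :
    Gx2 G B X W T Zc hx Bf f t (eeG (d₂ S P q d) (adf G B X W T Zc f) fun j => (θ j, x₀ j)) =
      if (adf G B X W T Zc f).Ff2 θ ∧ (adf G B X W T Zc f).rz θ = hx f then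
        (if (adf G B X W T Zc f).Fz Bf t θ then
          (adf G B X W T Zc f).Hhh t ((adf G B X W T Zc f).xj x₀) θ *
            (adf G B X W T Zc f).Kr2 ((adf G B X W T Zc f).je2 θ x₀) ((adf G B X W T Zc f).vl t) /
            (Fintype.card S : ℂ) ^ (adf G B X W T Zc f).Vf.card else 0) else 0 := by
  unfold Gx2
  rw [et2_ee, ee_xj2, ee_je2]
  by_cases h1 : (adf G B X W T Zc f).Ff2 θ ∧ (adf G B X W T Zc f).rz θ = hx f
  · rw [if_pos h1, if_pos h1]
    by_cases h2 : (adf G B X W T Zc f).Fz Bf t θ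
    · have h3 : (adf G B X W T Zc f).rz θ = hx f ∧ (adf G B X W T Zc f).Fz Bf t θ := ⟨h1.2, h2⟩
      rw [if_pos h3, if_pos h2]
      ring
    · rw [if_neg fun h => h2 h.2, if_neg h2, mul_zero]
  · rw [if_neg h1, if_neg h1, zero_mul]

theorem rei2 [Fintype S] [Fintype P] [NeZero q] {k Mw c₀ : ℕ} (T : ℝ) (Zc : Finset (Pl K))
    (hZE : Disjoint Zc X.E) (hZ0 : Disjoint Zc D.S0)
    (hx : ∀ f : Pl K → Option (Px c), (adf G B X W T Zc f).Jf → Du S q (d + 1) × Du S q (d + 1 + 1))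
    (Bf : ∀ i j : ℕ, Gr S i →+ Gr S j →+ ZMod q) (wt : (Pl K → Option (Px c)) → ℂ)
    (hok : ∀ f ∈ Cf Zc (Px c), wt f ≠ 0 → (adf G B X W T Zc f).Ok p k Mw q c₀ G.Pi) :
    ∑ f ∈ Cf Zc (Px c), wt f * (adf G B X W T Zc f).Mn (fun τ =>
      ∑ θ ∈ Finset.univ.filter (fun θ : (adf G B X W T Zc f).Jf → Dz S q d × Dz S q (d + 1) =>
        (adf G B X W T Zc f).Ff2 θ ∧ (adf G B X W T Zc f).rz θ = hx f),
        if (adf G B X W T Zc f).Fz Bf τ θ then
          (adf G B X W T Zc f).Hhh τ ((adf G B X W T Zc f).vl τ) θ else 0) =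
    EX2 G B X W T Zc hx Bf wt := by
  have h0 : EX2 G B X W T Zc hx Bf wt =
      ∑ τ : V0 B X → S, ∑ e : H73.S3.J0 X → El2 S P q d,
        ∑ F ∈ Cf Zc (LbG c S (El2 S P q d) Unit),
          (fun (f : Pl K → Option (Px c)) (t : Pl K → S) (e : Pl K ⊕ Fin A.g → El2 S P q d)
            (_ : Pl K → Unit) => wt f * Gx2 G B X W T Zc hx Bf f t e)
            (lfG F) (tfG (xt0 B X τ) F) (efG (xeG (d₂ S P q d) X e) F) (kfG F) := by
    unfold EX2
    refine Finset.sum_congr rfl fun τ _ => Finset.sum_congr rfl fun e _ =>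
      Finset.sum_congr rfl fun F _ => ?_
    rw [mul_assoc]
    rfl
  refine Eq.trans ?_ (h0.trans (rei_sumG (U := Unit) G B X W (d₂ S P q d) T Zc hZE hZ0
    (fun f t e _ => wt f * Gx2 G B X W T Zc hx Bf f t e))).symm
  refine Finset.sum_congr rfl fun f hf => ?_
  by_cases hw : wt f = 0
  · simp only [hw, zero_mul, Finset.sum_const_zero]
  have hX := hok f hf hw
  have h1 : ∀ t : (adf G B X W T Zc f).Vf → S,
      ∑ e : (adf G B X W T Zc f).Jf → El2 S P q d, ∑ _κ : sp Zc f → Unit,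
        wt f * Gx2 G B X W T Zc hx Bf f ((adf G B X W T Zc f).ex t)
          (eeG (d₂ S P q d) (adf G B X W T Zc f) e) =
      wt f * (∑ θ ∈ Finset.univ.filter (fun θ : (adf G B X W T Zc f).Jf → Dz S q d × Dz S q (d + 1) =>
        (adf G B X W T Zc f).Ff2 θ ∧ (adf G B X W T Zc f).rz θ = hx f),
        if (adf G B X W T Zc f).Fz Bf ((adf G B X W T Zc f).ex t) θ then
          (adf G B X W T Zc f).Hhh ((adf G B X W T Zc f).ex t)
            ((adf G B X W T Zc f).vl ((adf G B X W T Zc f).ex t)) θ else 0) /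
          (Fintype.card S : ℂ) ^ (adf G B X W T Zc f).Vf.card := by
    intro t
    have h2 : ∀ e : (adf G B X W T Zc f).Jf → El2 S P q d, ∑ _κ : sp Zc f → Unit,
        wt f * Gx2 G B X W T Zc hx Bf f ((adf G B X W T Zc f).ex t)
          (eeG (d₂ S P q d) (adf G B X W T Zc f) e) =
        wt f * Gx2 G B X W T Zc hx Bf f ((adf G B X W T Zc f).ex t)
          (eeG (d₂ S P q d) (adf G B X W T Zc f) e) := by
      intro e
      rw [Finset.sum_const, Finset.card_univ, Fintype.card_unique, one_smul]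
    rw [Finset.sum_congr rfl fun e _ => h2 e, ← Finset.mul_sum, mul_div_assoc]
    refine congrArg _ ?_
    rw [← Fintype.sum_equiv (Equiv.arrowProdEquivProdArrow _ _ _).symm
      (fun z : ((adf G B X W T Zc f).Jf → Dz S q d × Dz S q (d + 1)) ×
        ((adf G B X W T Zc f).Jf → SP S P) => Gx2 G B X W T Zc hx Bf f
          ((adf G B X W T Zc f).ex t)
          (eeG (d₂ S P q d) (adf G B X W T Zc f) fun j => (z.1 j, z.2 j))) _ (fun z => rfl),
      Fintype.sum_prod_type, Finset.sum_filter, Finset.sum_div]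
    refine Finset.sum_congr rfl fun θ _ => ?_
    simp_rw [gx2_eq G B X W T Zc hx Bf f _ θ]
    by_cases h3 : (adf G B X W T Zc f).Ff2 θ ∧ (adf G B X W T Zc f).rz θ = hx f
    · simp_rw [if_pos h3]
      by_cases h4 : (adf G B X W T Zc f).Fz Bf ((adf G B X W T Zc f).ex t) θ
      · simp_rw [if_pos h4]
        rw [← Finset.sum_div]
        congr 1
        rw [cell2 (adf G B X W T Zc f) hX ((adf G B X W T Zc f).ex t) _ θ]
        exact Finset.sum_congr (by ext; simp) fun _ _ => rfl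
      · simp_rw [if_neg h4]
        rw [Finset.sum_const_zero, zero_div]
    · simp_rw [if_neg h3]
      rw [Finset.sum_const_zero, zero_div]
  rw [Finset.sum_congr rfl fun t _ => h1 t, ← Finset.sum_div, ← Finset.mul_sum, mul_div_assoc]
  rfl

end H70.OW
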