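import Pool.Agent.H12.OW.Chl
import Pool.Agent.H12.OW.Kil
import Pool.Agent.H73.OW.Ker2

/-!
# [H70 OW CLK] MP_b39724_nt, theorem OW, (b5): the kernels in a cell, abstract frames

`X` the frame of `S`, `Y` the frame of the group `St` with own letters (same letters, places, `Jf`, `pp`), `EV : SP St Pt →* SP S P`, `EV (il u) = il (ev u)`.
* `rp_mul`, `kf2_mul`, `kf_mul`: the kernels at `il u * x`, `u ∈ gam_D`.
* `rhc`: the constant of a cell. `rhc_le`: its norm is at most `1`.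
* `cel_id`: if `x j = il (g j) * x0 j`, `RR τ x = 1` and `η j (g j) = χ j (ev (g j)) + psi (Dj (g j))`, then `Kr2 e (EV x) = rhc * Kr (η, rp x0) x`.
-/

set_option autoImplicit false

open scoped commutatorElement
open scoped Classical

noncomputable section

namespace H70.OW

open H1.S3 H63.MA H73.S3 H73.OW H24.OW H12.OW

open H71.S3 (cjl)

attribute [local instance 50] Fintype.ofFinite

variable {S P St Pt : Type} [Group S] [Group P] [MulDistribMulAction P S] [Group St] [Group Pt]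
  [MulDistribMulAction Pt St] {J V : Type} {q d : ℕ}

theorem rp_mul (D : ℕ) {u : S} (hu : u ∈ gm S D) (x : SP S P) : rp D (il u * x) = rp D x := by
  unfold rp
  congr 1
  refine Quotient.sound ?_
  refine QuotientGroup.rightRel_apply.2 ?_
  have h : x * (il u * x)⁻¹ = (SemidirectProduct.inl : S →* SP S P) u⁻¹ := by
    rw [map_inv, mul_inv_rev, mul_inv_cancel_left]
    rfl
  rw [h]
  exact Subgroup.mem_map_of_mem _ (inv_mem hu)

theorem rp_mem (D : ℕ) (x : SP S P) : (x * (rp D x)⁻¹).left ∈ gm S D := by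
  have h1 : x * (rp D x)⁻¹ ∈ (gm S D).map (SemidirectProduct.inl : S →* SP S P) := by
    have h2 := Quotient.mk_out (s := QuotientGroup.rightRel ((gm S D).map
      (SemidirectProduct.inl : S →* SP S P))) x
    exact QuotientGroup.rightRel_apply.1 h2
  obtain ⟨v, hv, hv2⟩ := h1
  have h3 : (x * (rp D x)⁻¹).left = v := by
    rw [← hv2]
    rfl
  rw [h3]
  exact hv

theorem il_mul_left (u : S) (x : SP S P) : (il u * x).left = u * x.left := by
  show u * ((1 : P) • x.left) = _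
  rw [one_smul]

theorem ep_mul' [NeZero q] (a b : ZMod q) : ep q (a + b) = ep q a * ep q b := epq_add a b

theorem kf2_mul [NeZero q] (D : ℕ) (χ : Dz S q D) (x₀ x : SP S P) {u : S} (hu : u ∈ gm S D) :
    Kf2 D χ x₀ (il u * x) = ep q (χ.ap (gz D u)) * Kf2 D χ x₀ x := by
  unfold Kf2
  rw [rp_mul D hu]
  by_cases h : rp D x = x₀
  · rw [if_pos h, if_pos h, mul_assoc, il_mul_left, gz_mul hu (by rw [← h]; exact rp_mem D x),
      map_add, ep_mul']
  · rw [if_neg h, if_neg h, mul_zero]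

theorem kf_mul [NeZero q] (D : ℕ) (χ : Du S q D) (x₀ x : SP S P) {u : S} (hu : u ∈ gm S D) :
    Kf D χ x₀ (il u * x) = ep q (χ.ap (gk D u)) * Kf D χ x₀ x := by
  unfold Kf
  rw [rp_mul D hu]
  by_cases h : rp D x = x₀
  · rw [if_pos h, if_pos h, mul_assoc, il_mul_left, gk_mul hu (by rw [← h]; exact rp_mem D x),
      map_add, ep_mul']
  · rw [if_neg h, if_neg h, mul_zero]

theorem kf_self [NeZero q] (D : ℕ) (χ : Du S q D) (x : SP S P) :
    Kf D χ (rp D x) x * star (Kf D χ (rp D x) x) = 1 := by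
  unfold Kf
  rw [if_pos rfl]
  have h := ep_norm q (χ.ap (gk D (x * (rp D x)⁻¹).left))
  rw [Complex.star_def, Complex.mul_conj, Complex.normSq_eq_norm_sq, h]
  norm_num

/-- the constant of a letter -/
def rh1 (D : ℕ) (χ : Dz S q D) (x₀ y : SP S P) (η : Du St q D) (x0 : SP St Pt) : ℂ :=
  Kf2 D χ x₀ y * star (Kf D η (rp D x0) x0)

theorem rh1_le (D : ℕ) (χ : Dz S q D) (x₀ y : SP S P) (η : Du St q D) (x0 : SP St Pt) :
    ‖rh1 D χ x₀ y η x0‖ ≤ 1 := by
  unfold rh1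
  rw [norm_mul, norm_star]
  exact mul_le_one₀ (kf2_le _ _ _ _) (norm_nonneg _) (kf_le _ _ _ _)

/-- one letter in a cell -/
theorem kf2_cell [NeZero q] (EV : SP St Pt →* SP S P) (ev : St →* S)
    (hEV : ∀ u, EV (il u) = il (ev u)) (D : ℕ) (χ : Dz S q D) (x₀ : SP S P) (η : Du St q D)
    (x0 : SP St Pt) {g : St} (hg : g ∈ gm St D) :
    Kf2 D χ x₀ (EV (il g * x0)) =
      ep q (χ.ap (gz D (ev g)) - η.ap (gk D g)) * rh1 D χ x₀ (EV x0) η x0 *
        Kf D η (rp D x0) (il g * x0) := by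
  rw [map_mul, hEV, kf2_mul D χ x₀ _ (gm_hom ev hg), kf_mul D η _ _ hg]
  unfold rh1
  have h1 := kf_self D η x0
  have h2 : ep q (χ.ap (gz D (ev g))) = ep q (χ.ap (gz D (ev g)) - η.ap (gk D g)) *
      ep q (η.ap (gk D g)) := by
    rw [← ep_mul', sub_add_cancel]
  rw [h2]
  linear_combination (-(ep q (χ.ap (gz D (ev g)) - η.ap (gk D g)) * ep q (η.ap (gk D g)) *
    Kf2 D χ x₀ (EV x0))) * h1

/-- the constant of a cell -/
def rhc (X : AD S P J V) (Y : AD St Pt J V) (EV : SP St Pt →* SP S P) (psi : St → ZMod q)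
    (τ : V → St) (x0 : J → SP St Pt) (e : J → El2 S P q d)
    (η : J → Du St q d × Du St q (d + 1)) : ℂ :=
  ep q (psi (Y.RR τ x0).left) * ∏ j ∈ X.Jf,
    if X.pp j then rh1 d (e j).1.1 (e j).2 (EV (x0 j)) (η j).1 (x0 j)
    else rh1 (d + 1) (e j).1.2 (e j).2 (EV (x0 j)) (η j).2 (x0 j)

theorem rhc_le (X : AD S P J V) (Y : AD St Pt J V) (EV : SP St Pt →* SP S P) (psi : St → ZMod q)
    (τ : V → St) (x0 : J → SP St Pt) (e : J → El2 S P q d)
    (η : J → Du St q d × Du St q (d + 1)) : ‖rhc X Y EV psi τ x0 e η‖ ≤ 1 := by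
  unfold rhc
  rw [norm_mul, ep_norm, one_mul, norm_prod]
  refine Finset.prod_le_one (fun j _ => norm_nonneg _) fun j _ => ?_
  split_ifs
  · exact rh1_le _ _ _ _ _ _
  · exact rh1_le _ _ _ _ _ _

theorem rr_jf (Y : AD St Pt J V) (ht1 : ∀ j, j ∉ Y.Jf → Y.t j = 1) (τ : V → St)
    (x x' : J → SP St Pt) (h : ∀ j ∈ Y.Jf, x j = x' j) : Y.RR τ x = Y.RR τ x' := by
  unfold AD.RR
  congr 1
  refine List.map_congr_left fun v _ => ?_
  have h1 : Y.bk x v = Y.bk x' v := by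
    unfold AD.bk wd
    congr 1
    refine List.map_congr_left fun i _ => ?_
    by_cases hi : i ∈ Y.Jf
    · rw [h i hi]
    · rw [ht1 i hi, commutatorElement_one_left, commutatorElement_one_left]
  rw [h1]

/-- the change of `psi (RR)` from the representatives of the cell to the true values -/
theorem rr_cell [NeZero q] (Y : AD St Pt J V) {K : Subgroup St} {psi : St → ZMod q}
    (hK : ∀ (g : SP St Pt), ∀ u ∈ K, cjl g u ∈ K)
    (hadd : ∀ u ∈ K, ∀ v ∈ K, psi (u * v) = psi u + psi v) (hnd : Y.l.Nodup)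
    (hbn : ∀ v ∈ Y.l, (Y.bl v).Nodup) (hbp : ∀ v, ∀ j ∈ Y.bl v, Y.pj j = v)
    (hjl : ∀ j ∈ Y.Jf, Y.pj j ∈ Y.l ∧ j ∈ Y.bl (Y.pj j)) (ht1 : ∀ j, j ∉ Y.Jf → Y.t j = 1)
    (τ : V → St) (x x0 : J → SP St Pt) (g : J → St) (hx : ∀ j ∈ Y.Jf, x j = il (g j) * x0 j)
    (hD : ∀ j ∈ Y.Jf, dl (Y.t j) (x0 j) (g j) ∈ K) (hR : Y.RR τ x = 1) :
    (Y.RR τ x0).left ∈ K ∧ (Y.RR τ x0).right = 1 ∧
      psi (Y.RR τ x0).left = -∑ j ∈ Y.Jf, psi (Dj Y τ x0 j (g j)) := by
  have h0 : psi 1 = 0 := by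
    have h := hadd 1 (one_mem K) 1 (one_mem K)
    rw [mul_one] at h
    exact left_eq_add.1 h
  have hzb : ∀ b : SP St Pt, zb b (1 : St) = 1 := by
    intro b
    unfold zb
    rw [inv_one, cjl_one, mul_one]
  obtain ⟨E, hE, h1, h2⟩ := rr_ch Y hK hadd hnd hbn hbp hjl τ (fun _ => 1) x0 (fun j => g j)
    (fun j => hD j j.2) (fun v _ => by rw [hzb]; exact one_mem K)
    (fun v _ g w _ => by rw [H71.S3.il_one, mul_one])
  have h3 : Y.RR (fun v => τ v * 1) (Y.mv (fun j => g j) x0) = 1 := by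
    have e1 : (fun v => τ v * 1) = τ := funext fun v => mul_one _
    rw [e1, ← hR]
    refine rr_jf Y ht1 τ _ _ fun j hj => ?_
    unfold AD.mv
    rw [dif_pos hj, hx j hj]
  rw [h3] at h1
  have h4 : Y.RR τ x0 = il E⁻¹ := by
    rw [H71.S3.il_inv]
    exact eq_inv_of_mul_eq_one_right h1.symm
  have h5 := h2 1
  rw [one_cjl] at h5
  have h6 : (Y.l.map fun v => psi (cjl ((1 : SP St Pt) * (pf Y τ x0 v * il (τ v)))
      (zb (Y.bk x0 v) (1 : St)))).sum = 0 := by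
    apply List.sum_eq_zero
    intro a ha
    rw [List.mem_map] at ha
    obtain ⟨v, -, rfl⟩ := ha
    rw [hzb, cjl_one, h0]
  rw [h6, add_zero] at h5
  have h7 : psi E⁻¹ = -psi E := by
    have h := hadd E hE E⁻¹ (inv_mem hE)
    rw [mul_inv_cancel, h0] at h
    exact (neg_eq_of_add_eq_zero_right h.symm).symm
  refine ⟨?_, ?_, ?_⟩
  · rw [h4]
    exact inv_mem hE
  · rw [h4]
    rfl
  · rw [h4]
    show psi E⁻¹ = _
    rw [h7, h5, ← Finset.sum_coe_sort Y.Jf fun j => psi (Dj Y τ x0 j (g j))]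
    refine congrArg Neg.neg (Finset.sum_congr rfl fun j _ => ?_)
    rw [one_cjl]

/-- THE CELL IDENTITY for the kernels -/
theorem cel_id [NeZero q] (X : AD S P J V) (Y : AD St Pt J V) (EV : SP St Pt →* SP S P)
    (ev : St →* S) (hEV : ∀ u, EV (il u) = il (ev u)) (hJ : Y.Jf = X.Jf)
    (hpp : ∀ j ∈ X.Jf, (Y.pp j ↔ X.pp j)) {K : Subgroup St} {psi : St → ZMod q}
    (hK : ∀ (g : SP St Pt), ∀ u ∈ K, cjl g u ∈ K)
    (hadd : ∀ u ∈ K, ∀ v ∈ K, psi (u * v) = psi u + psi v) (hnd : Y.l.Nodup)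
    (hbn : ∀ v ∈ Y.l, (Y.bl v).Nodup) (hbp : ∀ v, ∀ j ∈ Y.bl v, Y.pj j = v)
    (hjl : ∀ j ∈ Y.Jf, Y.pj j ∈ Y.l ∧ j ∈ Y.bl (Y.pj j)) (ht1 : ∀ j, j ∉ Y.Jf → Y.t j = 1)
    (τ : V → St) (x x0 : J → SP St Pt) (g : J → St) (hx : ∀ j ∈ X.Jf, x j = il (g j) * x0 j)
    (hg : ∀ j ∈ X.Jf, g j ∈ gm St (if X.pp j then d else d + 1))
    (hD : ∀ j ∈ X.Jf, dl (Y.t j) (x0 j) (g j) ∈ K) (hR : Y.RR τ x = 1)
    (e : J → El2 S P q d) (η : J → Du St q d × Du St q (d + 1))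
    (hη : ∀ j ∈ X.Jf, (if X.pp j then (η j).1.ap (gk d (g j)) else (η j).2.ap (gk (d + 1) (g j))) =
      (if X.pp j then (e j).1.1.ap (gz d (ev (g j))) else (e j).1.2.ap (gz (d + 1) (ev (g j)))) +
        psi (Dj Y τ x0 j (g j))) :
    X.Kr2 e (fun j => EV (x j)) = rhc X Y EV psi τ x0 e η *
      Y.Kr (fun j => (η j, rp (if X.pp j then d else d + 1) (x0 j))) x := by
  obtain ⟨-, -, h1⟩ := rr_cell Y hK hadd hnd hbn hbp hjl ht1 τ x x0 g (fun j hj => hx j (hJ ▸ hj))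
    (fun j hj => hD j (hJ ▸ hj)) hR
  have h2 : X.Kr2 e (fun j => EV (x j)) = ∏ j ∈ X.Jf,
      ep q (-psi (Dj Y τ x0 j (g j))) *
      ((if X.pp j then rh1 d (e j).1.1 (e j).2 (EV (x0 j)) (η j).1 (x0 j)
        else rh1 (d + 1) (e j).1.2 (e j).2 (EV (x0 j)) (η j).2 (x0 j)) *
      (if Y.pp j then Kf d (η j).1 (rp (if X.pp j then d else d + 1) (x0 j)) (x j)
        else Kf (d + 1) (η j).2 (rp (if X.pp j then d else d + 1) (x0 j)) (x j))) := by
    unfold AD.Kr2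
    refine Finset.prod_congr rfl fun j hj => ?_
    have k1 := hg j hj
    have k2 := hη j hj
    by_cases hp : X.pp j
    · have hp' : Y.pp j := (hpp j hj).2 hp
      simp only [if_pos hp, if_pos hp'] at k1 k2 ⊢
      rw [hx j hj, kf2_cell EV ev hEV d _ _ (η j).1 _ k1]
      have k3 : (e j).1.1.ap (gz d (ev (g j))) - (η j).1.ap (gk d (g j)) =
          -psi (Dj Y τ x0 j (g j)) := by
        rw [k2]
        ring
      rw [k3, mul_assoc]
    · have hp' : ¬Y.pp j := fun h => hp ((hpp j hj).1 h)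
      simp only [if_neg hp, if_neg hp'] at k1 k2 ⊢
      rw [hx j hj, kf2_cell EV ev hEV (d + 1) _ _ (η j).2 _ k1]
      have k3 : (e j).1.2.ap (gz (d + 1) (ev (g j))) - (η j).2.ap (gk (d + 1) (g j)) =
          -psi (Dj Y τ x0 j (g j)) := by
        rw [k2]
        ring
      rw [k3, mul_assoc]
  rw [h2, Finset.prod_mul_distrib, Finset.prod_mul_distrib, ← epq_sum, Finset.sum_neg_distrib]
  unfold rhc
  rw [h1, hJ, mul_assoc]
  congr 2
  unfold AD.Kr
  rw [hJ]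

end H70.OW
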