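import Pool.Agent.H70.OW.Clk
import Pool.Agent.H48.OW.Cfo
import Pool.Agent.H73.S3.Rei

/-!
# [H70 OW CFX] MP_b39724_nt, theorem OW, (b5): THE CELL IDENTITY for `FX2` at one tuple `v`

`f = up b v l`, `Y` the data of the configuration `rc f v` with own letters, `x = vl` its values, `x j = il (g j) * x0 j`.
* `bO`, `lO`: the enriched labels (own letters) of the fixed places and of the variables.
* `lf_bl`, `tf_bl`, `ef_bl`, `kf_bl`: the components of the configuration `up (bO ..) v (lO ..)`. `kx_eq`, `kr_jf`.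
* `cel_fx1`, `cel_fx`: `FX2` is the sum over the values `κ` of the crossed homomorphism of a constant times `FX` for the group with own letters.
-/

set_option autoImplicit false

open scoped NumberField commutatorElement
open IsDedekindDomain
open scoped Classical

noncomputable section

namespace H70.OW

open H63.MA H38.BB H38.BG H57.PC H57.BRA H77.WD H77.WE H77.PC3 H35.CF H35.UB H77.S3 H71.S3 H1.S3
  H73.S3 H73.OW H82.S3 H24.OW H12.OW H48.OW

attribute [local instance 50] Fintype.ofFinite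

section up

variable {V Λ Λ' : Type} {M : ℕ}

theorem map_up (F : Λ → Λ') (b : V → Option Λ) (v : Fin M → V) (l : Fin M → Λ) (w : V) :
    (up b v l w).map F = up (fun w => (b w).map F) v (fun k => F (l k)) w := by
  unfold up
  split_ifs with h
  · rfl
  · rfl

theorem sp_up {Z : Finset V} {W : V → Prop} {b : V → Option Λ} {v : Fin M → V}
    (hv : v ∈ H35.CF.Fr Z W b M) (l : Fin M → Λ) (w : V) :
    w ∈ sp Z (up b v l) ↔ (∃ k, v k = w) ∨ w ∈ sp Z b := by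
  obtain ⟨h1, h2⟩ := mem_fr.1 hv
  rw [mem_sp, mem_sp]
  by_cases h : ∃ k, v k = w
  · obtain ⟨k, rfl⟩ := h
    rw [up_of _ _ _ h2]
    exact ⟨fun _ => Or.inl ⟨k, rfl⟩, fun _ => ⟨(h1 k).1, Option.some_ne_none _⟩⟩
  · rw [H35.CF.up_ne _ _ _ _ fun k hk => h ⟨k, hk⟩]
    exact ⟨fun h3 => Or.inr h3, fun h3 => h3.resolve_left h⟩

end up

section lb

variable {K : Type} [Field K] [NumberField K] {p N : ℕ} {P : Type} [Group P] (hp : p.Prime)
  (c : CL p N P) (M : ℕ) (Pa : Par) {q d g : ℕ}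

/-- the labels of the fixed places -/
def bO (b : Pl K → Option (Elb2 c (Sp Pa (Px c)) q d))
    (E : Pl K ⊕ Fin g → El (So hp c M Pa) (P × Ci p M) q d)
    (κ : Pl K → Du (So hp c M Pa) q (d + 1)) (w : Pl K) :
    Option (Elb (cO hp c M) (So hp c M Pa) q d) :=
  (b w).map fun a => (mkx a.1 none, (owl hp c M).inc Pa a.2.1, E (Sum.inl w), κ w)

/-- the labels of the variables -/
def lO (l : Fin M → Elb2 c (Sp Pa (Px c)) q d)
    (E : Fin M → El (So hp c M Pa) (P × Ci p M) q d)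
    (κ : Fin M → Du (So hp c M Pa) q (d + 1)) (k : Fin M) :
    Elb (cO hp c M) (So hp c M Pa) q d :=
  (mkx (l k).1 (some k), (owl hp c M).inc Pa (l k).2.1, E k, κ k)

variable {hp c M Pa}
variable (b : Pl K → Option (Elb2 c (Sp Pa (Px c)) q d))
    (E : Pl K ⊕ Fin g → El (So hp c M Pa) (P × Ci p M) q d)
    (κ : Pl K → Du (So hp c M Pa) q (d + 1)) {v : Fin M → Pl K} (hv : Function.Injective v)
    (l : Fin M → Elb2 c (Sp Pa (Px c)) q d) (E' : Fin M → El (So hp c M Pa) (P × Ci p M) q d)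
    (κ' : Fin M → Du (So hp c M Pa) q (d + 1))

include hv in
theorem lf_bl : lf (up (bO hp c M Pa b E κ) v (lO hp c M Pa l E' κ')) =
    H93.OW.rc (hp := hp) (lf2 (up b v l)) v := by
  have h1 : lf2 (up b v l) = up (lf2 b) v fun k => (l k).1 := funext fun w => map_up _ _ _ _ _
  rw [h1, H93.OW.rc_up _ hv]
  funext w
  show (up (bO hp c M Pa b E κ) v (lO hp c M Pa l E' κ') w).map _ = _
  rw [map_up]
  congr 1
  funext w
  show ((b w).map _).map _ = ((b w).map _).map _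
  rw [Option.map_map, Option.map_map]
  rfl

include hv in
theorem tf_bl (τ₀ : Pl K → Sp Pa (Px c)) :
    tf (fun w => (owl hp c M).inc Pa (τ₀ w)) (up (bO hp c M Pa b E κ) v (lO hp c M Pa l E' κ')) =
      fun w => (owl hp c M).inc Pa (tf2 τ₀ (up b v l) w) := by
  funext w
  unfold tf tf2
  by_cases h : ∃ k, v k = w
  · obtain ⟨k, rfl⟩ := h
    rw [up_of _ _ _ hv, up_of _ _ _ hv]
    rfl
  · rw [H35.CF.up_ne _ _ _ _ fun k hk => h ⟨k, hk⟩, H35.CF.up_ne _ _ _ _ fun k hk => h ⟨k, hk⟩]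
    unfold bO
    cases b w <;> rfl

include hv in
theorem ef_v (k : Fin M) :
    ef E (up (bO hp c M Pa b E κ) v (lO hp c M Pa l E' κ')) (Sum.inl (v k)) = E' k := by
  show (up (bO hp c M Pa b E κ) v (lO hp c M Pa l E' κ') (v k)).elim _ _ = _
  rw [up_of _ _ _ hv]
  rfl

theorem ef_b (j : Pl K ⊕ Fin g) (h : ∀ k, Sum.inl (v k) ≠ j) :
    ef E (up (bO hp c M Pa b E κ) v (lO hp c M Pa l E' κ')) j = E j := by
  rcases j with w | i
  · show (up (bO hp c M Pa b E κ) v (lO hp c M Pa l E' κ') w).elim _ _ = _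
    rw [H35.CF.up_ne _ _ _ _ fun k hk => h k (congrArg Sum.inl hk)]
    unfold bO
    cases b w <;> rfl
  · rfl

include hv in
theorem kf_v (k : Fin M) :
    H73.S3.kf (up (bO hp c M Pa b E κ) v (lO hp c M Pa l E' κ')) (v k) = κ' k := by
  unfold H73.S3.kf
  rw [up_of _ _ _ hv]
  rfl

theorem kf_b (w : Pl K) (h : ∀ k, v k ≠ w) (hw : b w ≠ none) :
    H73.S3.kf (up (bO hp c M Pa b E κ) v (lO hp c M Pa l E' κ')) w = κ w := by
  unfold H73.S3.kf
  rw [H35.CF.up_ne _ _ _ _ h]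
  unfold bO
  obtain ⟨a, ha⟩ := Option.ne_none_iff_exists'.1 hw
  rw [ha]
  rfl

end lb

section nt

variable {K : Type} [Field K] [NumberField K] {Ω : Type} [Field Ω] [Algebra K Ω]
  {p N : ℕ} {ζ : K} {D : RD0 K p ζ} {Q : DP K Ω} {A : GS D Ω} {P : Type} [Group P]
  {c : CL p N P} {S : Type} [Group S] [MulDistribMulAction P S] {q m : ℕ}

theorem kx_eq (G : SG c S) (B : SD D Q A) (X : FD A P S) (W : WF A) (T : ℝ) (Zc : Finset (Pl K))
    (e₀ : Pl K ⊕ Fin A.g → El S P q m) {F : Pl K → Option (Elb c S q m)} {f : Pl K → Option (Px c)}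
    (h : lf F = f) {η : Pl K ⊕ Fin A.g → Du S q m × Du S q (m + 1)}
    (hη : ∀ j ∈ (adf G B X W T Zc f).Jf, (ef e₀ F j).1 = η j) :
    kx G B X W T Zc e₀ F = (adf G B X W T Zc f).kk fun j => η j := by
  subst h
  unfold kx
  congr 1
  funext j
  exact hη j j.2

theorem kr_congr {J V : Type} (Y : AD S P J V) {e e' : J → El S P q m} (h : ∀ j ∈ Y.Jf, e j = e' j)
    (x : J → SP S P) : Y.Kr e x = Y.Kr e' x := by
  unfold AD.Kr
  refine Finset.prod_congr rfl fun j hj => ?_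
  rw [h j hj]

end nt

section cfx

variable {K : Type} [Field K] [NumberField K] {Ω : Type} [Field Ω] [Algebra K Ω]
  {p N : ℕ} {ζ : K} {D : RD0 K p ζ} {Q : DP K Ω} {A : GS D Ω} {P : Type} [Group P] {hp : p.Prime}
  {c : CL p N P} {M : ℕ} {Pa : Par} {q d : ℕ} [NeZero q] [Finite (So hp c M Pa)]

/-- THE CELL IDENTITY, `hfz` only for `rz = hx` -/
theorem cel_fx1 {G : SG c (Sp Pa (Px c))} {G' : SG (cO hp c M) (So hp c M Pa)}
    (hG : ∀ x, G.y x = sy Pa x) (hG' : ∀ x, G'.y x = sy Pa x) (B : SD D Q A)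
    (X : FD A P (Sp Pa (Px c))) (W : WF A) (T : ℝ) (Zc : Finset (Pl K))
    (hx : ∀ f : Pl K → Option (Px c), (adf G B X W T Zc f).Jf →
      Du (Sp Pa (Px c)) q (d + 1) × Du (Sp Pa (Px c)) q (d + 1 + 1))
    (Bf : ∀ i j : ℕ, Gr (Sp Pa (Px c)) i →+ Gr (Sp Pa (Px c)) j →+ ZMod q)
    (τ₀ : Pl K → Sp Pa (Px c)) (e₀ : Pl K ⊕ Fin A.g → El2 (Sp Pa (Px c)) P q d)
    (b : Pl K → Option (Elb2 c (Sp Pa (Px c)) q d)) (l : Fin M → Elb2 c (Sp Pa (Px c)) q d)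
    {v : Fin M → Pl K} (hv : v ∈ H35.CF.Fr Zc (PPc X W T) b M)
    {Y : AD (So hp c M Pa) (P × Ci p M) (Pl K ⊕ Fin A.g) (Pl K)}
    (hY : Y = adf G' B (fdo hp c M X) W T Zc (H93.OW.rc (hp := hp) (lf2 (up b v l)) v))
    {τ : Pl K → So hp c M Pa}
    (hτ : τ = fun w => (owl hp c M).inc Pa (tf2 τ₀ (up b v l) w))
    {Ks : Subgroup (So hp c M Pa)} {psi : So hp c M Pa → ZMod q}
    (hK : ∀ (g : SP (So hp c M Pa) (P × Ci p M)), ∀ u ∈ Ks, cjl g u ∈ Ks)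
    (hadd : ∀ u ∈ Ks, ∀ w ∈ Ks, psi (u * w) = psi u + psi w) (hnd : Y.l.Nodup)
    (hbn : ∀ w ∈ Y.l, (Y.bl w).Nodup) (hbp : ∀ w, ∀ j ∈ Y.bl w, Y.pj j = w)
    (hjl : ∀ j ∈ Y.Jf, Y.pj j ∈ Y.l ∧ j ∈ Y.bl (Y.pj j)) (ht1 : ∀ j, j ∉ Y.Jf → Y.t j = 1)
    (hR : Y.RR τ (Y.vl τ) = 1)
    (x0 : Pl K ⊕ Fin A.g → SP (So hp c M Pa) (P × Ci p M)) (g : Pl K ⊕ Fin A.g → So hp c M Pa)
    (hxg : ∀ j ∈ Y.Jf, Y.vl τ j = il (g j) * x0 j)
    (hg : ∀ j ∈ Y.Jf, g j ∈ gm (So hp c M Pa) (if Y.pp j then d else d + 1))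
    (hD : ∀ j ∈ Y.Jf, dl (Y.t j) (x0 j) (g j) ∈ Ks)
    (η : Pl K ⊕ Fin A.g → Du (So hp c M Pa) q d × Du (So hp c M Pa) q (d + 1))
    (hη : ∀ j ∈ Y.Jf,
      (if Y.pp j then (η j).1.ap (gk d (g j)) else (η j).2.ap (gk (d + 1) (g j))) =
      (if Y.pp j then (ef2 e₀ (up b v l) j).1.1.ap (gz d ((owl hp c M).ev Pa (g j)))
        else (ef2 e₀ (up b v l) j).1.2.ap (gz (d + 1) ((owl hp c M).ev Pa (g j)))) +
        psi (Dj Y τ x0 j (g j)))
    (O2 : Pl K → Du (So hp c M Pa) q (d + 1) → Prop)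
    (hfz : (adx2 G B X W T Zc (up b v l)).rz
        ((adx2 G B X W T Zc (up b v l)).et2 (ef2 e₀ (up b v l))) = hx (lf2 (up b v l)) →
      ((adx2 G B X W T Zc (up b v l)).Fz Bf (tf2 τ₀ (up b v l))
        ((adx2 G B X W T Zc (up b v l)).et2 (ef2 e₀ (up b v l))) ↔
      (∀ w ∈ W.l, Y.kk (fun j : Y.Jf => η j) (wd FreeGroup.of Y.W (Y.bl w)) = 0) ∧
        ∀ w ∈ sp Zc (up b v l), PPc X W T w → O2 w (Y.kk (fun j : Y.Jf => η j) (W.Wv w))))
    (E : Pl K ⊕ Fin A.g → El (So hp c M Pa) (P × Ci p M) q d)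
    (hE : ∀ j ∈ Y.Jf, (∀ k, Sum.inl (v k) ≠ j) →
      E j = (η j, rp (if Y.pp j then d else d + 1) (x0 j)))
    (E' : Fin M → El (So hp c M Pa) (P × Ci p M) q d)
    (hE' : ∀ k, E' k = (η (Sum.inl (v k)), rp d (x0 (Sum.inl (v k))))) :
    FX2 G B X W T Zc hx Bf τ₀ e₀ (up b v l) =
      ∑ κ : sp Zc b → Du (So hp c M Pa) q (d + 1), ∑ κ' : Fin M → Du (So hp c M Pa) q (d + 1),
        (if (adx2 G B X W T Zc (up b v l)).rz
              ((adx2 G B X W T Zc (up b v l)).et2 (ef2 e₀ (up b v l))) = hx (lf2 (up b v l)) ∧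
            (∀ w : sp Zc b, PPc X W T w → O2 w (κ w)) ∧ ∀ k, O2 (v k) (κ' k) then
          rhc (adx2 G B X W T Zc (up b v l)) Y (EV hp c M Pa) psi τ x0 (ef2 e₀ (up b v l)) η
          else 0) *
        FX G' B (fdo hp c M X) W T Zc (fun w => (owl hp c M).inc Pa (τ₀ w)) E
          (up (bO hp c M Pa b E (k0 (sp Zc b) κ)) v (lO hp c M Pa l E' κ')) := by
  obtain ⟨hv1, hvi⟩ := mem_fr.1 hv
  obtain ⟨f, hf⟩ : ∃ f, f = up b v l := ⟨_, rfl⟩
  obtain ⟨fo, hfo⟩ : ∃ fo, fo = H93.OW.rc (hp := hp) (lf2 f) v := ⟨_, rfl⟩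
  have hfe : fe fo = lf2 f := by rw [hfo, fe_rc]
  obtain ⟨X1, hX1⟩ : ∃ X1, X1 = adf G B X W T Zc (lf2 f) := ⟨_, rfl⟩
  rw [← hf, ← hfo] at hY
  rw [← hf] at hτ hη hfz ⊢
  have hX1' : adx2 G B X W T Zc f = X1 := hX1.symm
  have hJ : Y.Jf = X1.Jf := by
    rw [hY, hX1, ado_jf, hfe]
  have hpp : ∀ j, Y.pp j ↔ X1.pp j := by
    intro j
    rw [hY, hX1, ado_pp, hfe]
  -- the kernels
  obtain ⟨k, hk⟩ : ∃ k, k = Y.kk fun j : Y.Jf => η j := ⟨_, rfl⟩
  obtain ⟨KR, hKR⟩ : ∃ KR, KR = Y.Kr (fun j => (η j, rp (if X1.pp j then d else d + 1) (x0 j)))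
    (Y.vl τ) := ⟨_, rfl⟩
  have hvl : X1.vl (tf2 τ₀ f) = fun j => EV hp c M Pa (Y.vl τ j) := by
    funext j
    rw [hY, hτ, ado_vl hG hG', hfe, ← hX1]
    congr 1
    funext w
    exact ((owl hp c M).ev_inc Pa _).symm
  have hid : X1.Kr2 (ef2 e₀ f) (X1.vl (tf2 τ₀ f)) =
      rhc X1 Y (EV hp c M Pa) psi τ x0 (ef2 e₀ f) η * KR := by
    rw [hvl, hKR]
    refine cel_id X1 Y (EV hp c M Pa) ((owl hp c M).ev Pa) EV_il hJ (fun j _ => hpp j) hK hadd hnd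
      hbn hbp hjl ht1 τ _ x0 g (fun j hj => hxg j (hJ ▸ hj)) (fun j hj => ?_)
      (fun j hj => hD j (hJ ▸ hj)) hR _ η fun j hj => ?_
    · have h1 := hg j (hJ ▸ hj)
      simp only [hpp] at h1
      exact h1
    · have h1 := hη j (hJ ▸ hj)
      simp only [hpp] at h1
      exact h1
  -- the configurations with own letters
  obtain ⟨F, hF⟩ : ∃ F : (sp Zc b → Du (So hp c M Pa) q (d + 1)) →
      (Fin M → Du (So hp c M Pa) q (d + 1)) → Pl K → Option (Elb (cO hp c M) (So hp c M Pa) q d),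
      ∀ κ κ', F κ κ' = up (bO hp c M Pa b E (k0 (sp Zc b) κ)) v (lO hp c M Pa l E' κ') :=
    ⟨_, fun _ _ => rfl⟩
  have hlf : ∀ κ κ', lf (F κ κ') = fo := by
    intro κ κ'
    rw [hF, lf_bl b E _ hvi l E' κ', hfo, hf]
  have hef : ∀ κ κ', ∀ j ∈ Y.Jf, ef E (F κ κ') j =
      (η j, rp (if Y.pp j then d else d + 1) (x0 j)) := by
    intro κ κ' j hj
    rw [hF]
    by_cases h : ∃ k, Sum.inl (v k) = j
    · obtain ⟨k, rfl⟩ := h
      have h1 : Y.pp (Sum.inl (v k)) := by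
        rw [hpp, hX1]
        refine ⟨?_, (hv1 k).2.1⟩
        rw [hf]
        have h2 := (sp_up hv l (v k)).2 (Or.inl ⟨k, rfl⟩)
        rw [mem_sp] at h2 ⊢
        refine ⟨h2.1, ?_⟩
        unfold lf2
        rw [up_of _ _ _ hvi]
        exact Option.some_ne_none _
      rw [ef_v b E _ hvi l E' κ', hE', if_pos h1]
    · rw [ef_b b E _ l E' κ' j fun k hk => h ⟨k, hk⟩, hE j hj fun k hk => h ⟨k, hk⟩]
  have hspf : ∀ κ κ', sp Zc (F κ κ') = sp Zc f := by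
    intro κ κ'
    have h1 : ∀ w, F κ κ' w = none ↔ f w = none := by
      intro w
      have h2 := congrFun (hlf κ κ') w
      have h3 : F κ κ' w = none ↔ fo w = none := by
        rw [← h2]
        unfold lf
        rw [Option.map_eq_none_iff]
      rw [h3, hfo, H93.OW.rc_none]
      unfold lf2
      rw [Option.map_eq_none_iff]
    ext w
    rw [mem_sp, mem_sp]
    exact and_congr_right fun _ => not_congr (h1 w)
  have hFX : ∀ κ κ', FX G' B (fdo hp c M X) W T Zc (fun w => (owl hp c M).inc Pa (τ₀ w)) E (F κ κ') =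
      if (∀ w ∈ W.l, k (wd FreeGroup.of Y.W (Y.bl w)) = 0) ∧
        ((∀ w : sp Zc b, κ w = if PPc X W T w then k (W.Wv w) else 0) ∧
          ∀ i, κ' i = k (W.Wv (v i))) then KR else 0 := by
    intro κ κ'
    have hkx : kx G' B (fdo hp c M X) W T Zc E (F κ κ') = k := by
      rw [kx_eq G' B (fdo hp c M X) W T Zc E (hlf κ κ') (η := η), ← hY, hk]
      intro j hj
      rw [← hY] at hj
      rw [hef κ κ' j hj]
    have hadx : adx G' B (fdo hp c M X) W T Zc (F κ κ') = Y := by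
      show adf G' B (fdo hp c M X) W T Zc (lf (F κ κ')) = Y
      rw [hlf, hY]
    have htf : tf (fun w => (owl hp c M).inc Pa (τ₀ w)) (F κ κ') = τ := by
      rw [hF, tf_bl b E _ hvi l E' κ', hτ, hf]
    have hKr : Y.Kr (ef E (F κ κ')) (Y.vl τ) = KR := by
      rw [hKR]
      refine kr_congr Y (fun j hj => ?_) _
      rw [hef κ κ' j hj]
      simp only [hpp]
    unfold FX
    rw [hkx, hadx, htf, hKr, hspf]
    refine if_congr (and_congr_right fun _ => ?_) rfl rfl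
    simp only [ppo]
    constructor
    · intro h
      refine ⟨fun w => ?_, fun i => ?_⟩
      · have hw := mem_sp.1 w.2
        have hne : ∀ i, v i ≠ (w : Pl K) := fun i hi => hw.2 (hi ▸ (hv1 i).2.2)
        have h1 := h w (by
          rw [hf, sp_up hv l]
          exact Or.inr w.2)
        rw [hF, kf_b b E _ l E' κ' w hne hw.2] at h1
        unfold k0 at h1
        rw [dif_pos w.2] at h1
        exact h1
      · have h1 := h (v i) (by
          rw [hf, sp_up hv l]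
          exact Or.inl ⟨i, rfl⟩)
        rw [hF, kf_v b E _ hvi l E' κ', if_pos (hv1 i).2.1] at h1
        exact h1
    · rintro ⟨h1, h2⟩ w hw
      rw [hf, sp_up hv l] at hw
      rcases hw with ⟨i, rfl⟩ | hw
      · rw [hF, kf_v b E _ hvi l E' κ', if_pos (hv1 i).2.1]
        exact h2 i
      · have hw' := mem_sp.1 hw
        have hne : ∀ i, v i ≠ w := fun i hi => hw'.2 (hi ▸ (hv1 i).2.2)
        rw [hF, kf_b b E _ l E' κ' w hne hw'.2]
        unfold k0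
        rw [dif_pos hw]
        exact h1 ⟨w, hw⟩
  simp only [← hF, hFX]
  -- the value of the crossed homomorphism
  obtain ⟨κs, hκs⟩ : ∃ κs : sp Zc b → Du (So hp c M Pa) q (d + 1),
      κs = fun w : sp Zc b => if PPc X W T w then k (W.Wv w) else 0 := ⟨_, rfl⟩
  obtain ⟨κt, hκt⟩ : ∃ κt : Fin M → Du (So hp c M Pa) q (d + 1), κt = fun i => k (W.Wv (v i)) :=
    ⟨_, rfl⟩
  rw [Finset.sum_eq_single κs, Finset.sum_eq_single κt]
  · have h1 : (∀ w ∈ sp Zc f, PPc X W T w → O2 w (k (W.Wv w))) ↔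
        (∀ w : sp Zc b, PPc X W T w → O2 w (κs w)) ∧ ∀ i, O2 (v i) (κt i) := by
      constructor
      · intro h
        refine ⟨fun w hw => ?_, fun i => ?_⟩
        · rw [hκs]
          show O2 w (if PPc X W T w then k (W.Wv w) else 0)
          rw [if_pos hw]
          refine h w ?_ hw
          rw [hf, sp_up hv l]
          exact Or.inr w.2
        · rw [hκt]
          refine h (v i) ?_ (hv1 i).2.1
          rw [hf, sp_up hv l]
          exact Or.inl ⟨i, rfl⟩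
      · rintro ⟨h1, h2⟩ w hw hpw
        rw [hf, sp_up hv l] at hw
        rcases hw with ⟨i, rfl⟩ | hw
        · have h3 := h2 i
          rw [hκt] at h3
          exact h3
        · have h3 := h1 ⟨w, hw⟩ hpw
          rw [hκs] at h3
          change O2 w (if PPc X W T w then k (W.Wv w) else 0) at h3
          rwa [if_pos hpw] at h3
    rw [← hk, h1] at hfz
    have h2 : ((∀ w : sp Zc b, κs w = if PPc X W T w then k (W.Wv w) else 0) ∧
        ∀ i, κt i = k (W.Wv (v i))) := by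
      rw [hκs, hκt]
      exact ⟨fun _ => rfl, fun _ => rfl⟩
    subst hX1
    unfold FX2
    rw [hid]
    by_cases hr : (adx2 G B X W T Zc f).rz ((adx2 G B X W T Zc f).et2 (ef2 e₀ f)) = hx (lf2 f)
    · have hfz := hfz hr
      by_cases hA : ∀ w ∈ W.l, k (wd FreeGroup.of Y.W (Y.bl w)) = 0
      · rw [if_pos (c := _ ∧ _ ∧ _) ⟨hA, h2⟩]
        by_cases hO : (∀ w : sp Zc b, PPc X W T w → O2 w (κs w)) ∧ ∀ i, O2 (v i) (κt i)
        · rw [if_pos ⟨hr, hfz.2 ⟨hA, hO⟩⟩, if_pos ⟨hr, hO⟩]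
        · rw [if_neg (fun h => hO (hfz.1 h.2).2), if_neg (fun h => hO h.2), zero_mul]
      · rw [if_neg (fun h => hA (hfz.1 h.2).1), if_neg (c := _ ∧ (_ ∧ _)) (fun h => hA h.1),
          mul_zero]
    · rw [if_neg (fun h => hr h.1), if_neg (fun h => hr h.1), zero_mul]
  · intro κ' _ hne
    refine (congrArg _ (if_neg ?_)).trans (mul_zero _)
    rintro ⟨-, -, h⟩
    exact hne (hκt ▸ funext h)
  · exact fun h => absurd (Finset.mem_univ _) h
  · intro κ _ hne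
    refine Finset.sum_eq_zero fun κ' _ => ?_
    refine (congrArg _ (if_neg ?_)).trans (mul_zero _)
    rintro ⟨-, h, -⟩
    exact hne (hκs ▸ funext h)
  · exact fun h => absurd (Finset.mem_univ _) h

/-- THE CELL IDENTITY -/
theorem cel_fx {G : SG c (Sp Pa (Px c))} {G' : SG (cO hp c M) (So hp c M Pa)}
    (hG : ∀ x, G.y x = sy Pa x) (hG' : ∀ x, G'.y x = sy Pa x) (B : SD D Q A)
    (X : FD A P (Sp Pa (Px c))) (W : WF A) (T : ℝ) (Zc : Finset (Pl K))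
    (hx : ∀ f : Pl K → Option (Px c), (adf G B X W T Zc f).Jf →
      Du (Sp Pa (Px c)) q (d + 1) × Du (Sp Pa (Px c)) q (d + 1 + 1))
    (Bf : ∀ i j : ℕ, Gr (Sp Pa (Px c)) i →+ Gr (Sp Pa (Px c)) j →+ ZMod q)
    (τ₀ : Pl K → Sp Pa (Px c)) (e₀ : Pl K ⊕ Fin A.g → El2 (Sp Pa (Px c)) P q d)
    (b : Pl K → Option (Elb2 c (Sp Pa (Px c)) q d)) (l : Fin M → Elb2 c (Sp Pa (Px c)) q d)
    {v : Fin M → Pl K} (hv : v ∈ H35.CF.Fr Zc (PPc X W T) b M)
    {Y : AD (So hp c M Pa) (P × Ci p M) (Pl K ⊕ Fin A.g) (Pl K)}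
    (hY : Y = adf G' B (fdo hp c M X) W T Zc (H93.OW.rc (hp := hp) (lf2 (up b v l)) v))
    {τ : Pl K → So hp c M Pa}
    (hτ : τ = fun w => (owl hp c M).inc Pa (tf2 τ₀ (up b v l) w))
    {Ks : Subgroup (So hp c M Pa)} {psi : So hp c M Pa → ZMod q}
    (hK : ∀ (g : SP (So hp c M Pa) (P × Ci p M)), ∀ u ∈ Ks, cjl g u ∈ Ks)
    (hadd : ∀ u ∈ Ks, ∀ w ∈ Ks, psi (u * w) = psi u + psi w) (hnd : Y.l.Nodup)
    (hbn : ∀ w ∈ Y.l, (Y.bl w).Nodup) (hbp : ∀ w, ∀ j ∈ Y.bl w, Y.pj j = w)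
    (hjl : ∀ j ∈ Y.Jf, Y.pj j ∈ Y.l ∧ j ∈ Y.bl (Y.pj j)) (ht1 : ∀ j, j ∉ Y.Jf → Y.t j = 1)
    (hR : Y.RR τ (Y.vl τ) = 1)
    (x0 : Pl K ⊕ Fin A.g → SP (So hp c M Pa) (P × Ci p M)) (g : Pl K ⊕ Fin A.g → So hp c M Pa)
    (hxg : ∀ j ∈ Y.Jf, Y.vl τ j = il (g j) * x0 j)
    (hg : ∀ j ∈ Y.Jf, g j ∈ gm (So hp c M Pa) (if Y.pp j then d else d + 1))
    (hD : ∀ j ∈ Y.Jf, dl (Y.t j) (x0 j) (g j) ∈ Ks)
    (η : Pl K ⊕ Fin A.g → Du (So hp c M Pa) q d × Du (So hp c M Pa) q (d + 1))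
    (hη : ∀ j ∈ Y.Jf,
      (if Y.pp j then (η j).1.ap (gk d (g j)) else (η j).2.ap (gk (d + 1) (g j))) =
      (if Y.pp j then (ef2 e₀ (up b v l) j).1.1.ap (gz d ((owl hp c M).ev Pa (g j)))
        else (ef2 e₀ (up b v l) j).1.2.ap (gz (d + 1) ((owl hp c M).ev Pa (g j)))) +
        psi (Dj Y τ x0 j (g j)))
    (O2 : Pl K → Du (So hp c M Pa) q (d + 1) → Prop)
    (hfz : (adx2 G B X W T Zc (up b v l)).Fz Bf (tf2 τ₀ (up b v l))
        ((adx2 G B X W T Zc (up b v l)).et2 (ef2 e₀ (up b v l))) ↔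
      (∀ w ∈ W.l, Y.kk (fun j : Y.Jf => η j) (wd FreeGroup.of Y.W (Y.bl w)) = 0) ∧
        ∀ w ∈ sp Zc (up b v l), PPc X W T w → O2 w (Y.kk (fun j : Y.Jf => η j) (W.Wv w)))
    (E : Pl K ⊕ Fin A.g → El (So hp c M Pa) (P × Ci p M) q d)
    (hE : ∀ j ∈ Y.Jf, (∀ k, Sum.inl (v k) ≠ j) →
      E j = (η j, rp (if Y.pp j then d else d + 1) (x0 j)))
    (E' : Fin M → El (So hp c M Pa) (P × Ci p M) q d)
    (hE' : ∀ k, E' k = (η (Sum.inl (v k)), rp d (x0 (Sum.inl (v k))))) :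
    FX2 G B X W T Zc hx Bf τ₀ e₀ (up b v l) =
      ∑ κ : sp Zc b → Du (So hp c M Pa) q (d + 1), ∑ κ' : Fin M → Du (So hp c M Pa) q (d + 1),
        (if (adx2 G B X W T Zc (up b v l)).rz
              ((adx2 G B X W T Zc (up b v l)).et2 (ef2 e₀ (up b v l))) = hx (lf2 (up b v l)) ∧
            (∀ w : sp Zc b, PPc X W T w → O2 w (κ w)) ∧ ∀ k, O2 (v k) (κ' k) then
          rhc (adx2 G B X W T Zc (up b v l)) Y (EV hp c M Pa) psi τ x0 (ef2 e₀ (up b v l)) η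
          else 0) *
        FX G' B (fdo hp c M X) W T Zc (fun w => (owl hp c M).inc Pa (τ₀ w)) E
          (up (bO hp c M Pa b E (k0 (sp Zc b) κ)) v (lO hp c M Pa l E' κ')) :=
  cel_fx1 hG hG' B X W T Zc hx Bf τ₀ e₀ b l hv hY hτ hK hadd hnd hbn hbp hjl ht1 hR x0 g hxg hg hD η
    hη O2 (fun _ => hfz) E hE E' hE'

end cfx

end H70.OW
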