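import Pool.Agent.H70.OW.Cfx
import Pool.Agent.H48.OW.Cls
import Pool.Agent.H62.OW.Okw

/-!
# [H70 OW CFQ] MP_b39724_nt, theorem OW, S4 (c5): the cell identity in the notation of H48/OW/Cls

* `kj_gm`, `kj_dl`: the changes `Kj v j` are in `gam_d` resp. `gam_(d+1)`, and `dl (t j) x (Kj v j) ≤ Kk univ`.
* `cel_fq1`, `cel_fq`: `cel_fx1`, `cel_fx` for `Yq`, `tq`, `xq`, `Kj`, with `Okw` (H62/OW/Okw), `Own` (H12/OW/Eta), `PK` (H24/OW/Pha).
-/

set_option autoImplicit false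

open scoped NumberField commutatorElement
open IsDedekindDomain
open scoped Classical

noncomputable section

namespace H70.OW

open H63.MA H38.BB H38.BG H57.PC H57.BRA H77.WD H77.WE H77.PC3 H35.CF H35.UB H77.S3 H71.S3 H1.S3
  H73.S3 H73.OW H82.S3 H24.OW H12.OW H48.OW

attribute [local instance 50] Fintype.ofFinite

theorem card_c {I : Type} [Fintype I] (i : I) : ({i}ᶜ : Finset I).card = Fintype.card I - 1 := by
  rw [Finset.card_compl, Finset.card_singleton]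

variable {K : Type} [Field K] [NumberField K] {Ω : Type} [Field Ω] [Algebra K Ω]
  {p N : ℕ} {ζ : K} {D : RD0 K p ζ} {Q : DP K Ω} {A : GS D Ω} {P : Type} [Group P] {hp : p.Prime}
  {c : CL p N P} {Pa : Par} {q d : ℕ}

/-- the changes are in `gam_d`, `gam_(d+1)` -/
theorem kj_gm {G' : SG (cO hp c (d + 1)) (So hp c (d + 1) Pa)} {B : SD D Q A}
    {X : FD A P (Sp Pa (Px c))} {W : WF A} {T : ℝ} {Zc : Finset (Pl K)}
    {f : Pl K → Option (Elb2 c (Sp Pa (Px c)) q d)} {v : Fin (d + 1) → Pl K}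
    (hO : Own (owl hp c (d + 1)) (Yq G' B X W T Zc f v) (H93.OW.ixv v)) {j : Pl K ⊕ Fin A.g}
    (hj : j ∈ (Yq G' B X W T Zc f v).Jf) {g : So hp c (d + 1) Pa} (hg : g ∈ Kj hp c Pa B v j) :
    g ∈ gm (So hp c (d + 1) Pa) (if (Yq G' B X W T Zc f v).pp j then d else d + 1) := by
  have h0 : g ∈ (owl hp c (d + 1)).Kk Pa (Tv (H93.OW.ixv v) ((Yq G' B X W T Zc f v).pj j)) := hg
  have h1 := (owl hp c (d + 1)).kk_le Pa _ h0
  rcases hr : H93.OW.ixv v ((Yq G' B X W T Zc f v).pj j) with _ | i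
  · rw [tv_none hr, Finset.card_univ, Fintype.card_fin] at h1
    split_ifs
    · exact gm_anti d h1
    · exact h1
  · rw [tv_some hr, card_c, Fintype.card_fin, Nat.add_sub_cancel] at h1
    obtain ⟨j', -, hp', hb, -⟩ := hO.rt _ (hO.jl j hj).1 i hr
    have e := (hO.jl j hj).2
    rw [hb, List.mem_singleton] at e
    rw [e, if_pos hp']
    exact h1

/-- THE CELL IDENTITY in the notation of H48/OW/Cls, `hfz` only for `rz = hx` -/
theorem cel_fq1 [NeZero q] [Finite P] [Finite (So hp c (d + 1) Pa)] {G : SG c (Sp Pa (Px c))}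
    {G' : SG (cO hp c (d + 1)) (So hp c (d + 1) Pa)} (hG : ∀ x, G.y x = sy Pa x)
    (hG' : ∀ x, G'.y x = sy Pa x) (B : SD D Q A) (X : FD A P (Sp Pa (Px c))) (W : WF A) (T : ℝ)
    (Zc : Finset (Pl K))
    (hx : ∀ f : Pl K → Option (Px c), (adf G B X W T Zc f).Jf →
      Du (Sp Pa (Px c)) q (d + 1) × Du (Sp Pa (Px c)) q (d + 1 + 1))
    (Bf : ∀ i j : ℕ, Gr (Sp Pa (Px c)) i →+ Gr (Sp Pa (Px c)) j →+ ZMod q)
    (τ₀ : Pl K → Sp Pa (Px c)) (e₀ : Pl K ⊕ Fin A.g → El2 (Sp Pa (Px c)) P q d)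
    (b : Pl K → Option (Elb2 c (Sp Pa (Px c)) q d))
    (l : Fin (d + 1) → Elb2 c (Sp Pa (Px c)) q d) {v : Fin (d + 1) → Pl K}
    (hv : v ∈ H35.CF.Fr Zc (PPc X W T) b (d + 1)) {k Mw : ℕ}
    (hok : (Yq G' B X W T Zc (up b v l) v).Okw p k Mw q)
    (hO : Own (owl hp c (d + 1)) (Yq G' B X W T Zc (up b v l) v) (H93.OW.ixv v))
    {psi : So hp c (d + 1) Pa → ZMod q}
    (hps : PK (P × Ci p (d + 1)) ((owl hp c (d + 1)).Kk Pa Finset.univ) psi (d + 1)) (hd : 2 ≤ d)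
    (x0 : Pl K ⊕ Fin A.g → SP (So hp c (d + 1) Pa) (P × Ci p (d + 1)))
    (hm : ∀ j ∈ (Yq G' B X W T Zc (up b v l) v).Jf, ∃ g ∈ Kj hp c Pa B v j,
      xq G' B X W T Zc τ₀ (up b v l) v j = il g * x0 j)
    (η : Pl K ⊕ Fin A.g → Du (So hp c (d + 1) Pa) q d × Du (So hp c (d + 1) Pa) q (d + 1))
    (hη : ∀ j ∈ (Yq G' B X W T Zc (up b v l) v).Jf, ∀ g ∈ Kj hp c Pa B v j,
      (if (Yq G' B X W T Zc (up b v l) v).pp j then (η j).1.ap (gk d g)
        else (η j).2.ap (gk (d + 1) g)) =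
      (if (Yq G' B X W T Zc (up b v l) v).pp j then
          (ef2 e₀ (up b v l) j).1.1.ap (gz d ((owl hp c (d + 1)).ev Pa g))
        else (ef2 e₀ (up b v l) j).1.2.ap (gz (d + 1) ((owl hp c (d + 1)).ev Pa g))) +
        psi (Dj (Yq G' B X W T Zc (up b v l) v) (tq hp τ₀ (up b v l)) x0 j g))
    (O2 : Pl K → Du (So hp c (d + 1) Pa) q (d + 1) → Prop)
    (hfz : (adx2 G B X W T Zc (up b v l)).rz
        ((adx2 G B X W T Zc (up b v l)).et2 (ef2 e₀ (up b v l))) = hx (lf2 (up b v l)) →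
      ((adx2 G B X W T Zc (up b v l)).Fz Bf (tf2 τ₀ (up b v l))
        ((adx2 G B X W T Zc (up b v l)).et2 (ef2 e₀ (up b v l))) ↔
      (∀ w ∈ W.l, (Yq G' B X W T Zc (up b v l) v).kk
        (fun j : (Yq G' B X W T Zc (up b v l) v).Jf => η j)
          (wd FreeGroup.of (Yq G' B X W T Zc (up b v l) v).W
            ((Yq G' B X W T Zc (up b v l) v).bl w)) = 0) ∧
        ∀ w ∈ sp Zc (up b v l), PPc X W T w → O2 w ((Yq G' B X W T Zc (up b v l) v).kk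
          (fun j : (Yq G' B X W T Zc (up b v l) v).Jf => η j) (W.Wv w))))
    (E : Pl K ⊕ Fin A.g → El (So hp c (d + 1) Pa) (P × Ci p (d + 1)) q d)
    (hE : ∀ j ∈ (Yq G' B X W T Zc (up b v l) v).Jf, (∀ k, Sum.inl (v k) ≠ j) →
      E j = (η j, rp (if (Yq G' B X W T Zc (up b v l) v).pp j then d else d + 1) (x0 j)))
    (E' : Fin (d + 1) → El (So hp c (d + 1) Pa) (P × Ci p (d + 1)) q d)
    (hE' : ∀ k, E' k = (η (Sum.inl (v k)), rp d (x0 (Sum.inl (v k))))) :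
    FX2 G B X W T Zc hx Bf τ₀ e₀ (up b v l) =
      ∑ κ : sp Zc b → Du (So hp c (d + 1) Pa) q (d + 1),
        ∑ κ' : Fin (d + 1) → Du (So hp c (d + 1) Pa) q (d + 1),
        (if (adx2 G B X W T Zc (up b v l)).rz
              ((adx2 G B X W T Zc (up b v l)).et2 (ef2 e₀ (up b v l))) = hx (lf2 (up b v l)) ∧
            (∀ w : sp Zc b, PPc X W T w → O2 w (κ w)) ∧ ∀ k, O2 (v k) (κ' k) then
          rhc (adx2 G B X W T Zc (up b v l)) (Yq G' B X W T Zc (up b v l) v)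
            (EV hp c (d + 1) Pa) psi (tq hp τ₀ (up b v l)) x0 (ef2 e₀ (up b v l)) η
          else 0) *
        FX G' B (fdo hp c (d + 1) X) W T Zc (fun w => (owl hp c (d + 1)).inc Pa (τ₀ w)) E
          (up (bO hp c (d + 1) Pa b E (k0 (sp Zc b) κ)) v (lO hp c (d + 1) Pa l E' κ')) := by
  have hst := kst_own hO hps hd (Fintype.card_fin _)
  have hFS : Fintype (So hp c (d + 1) Pa) := Fintype.ofFinite _
  have hp0 : NeZero p := ⟨hp.ne_zero⟩
  have hR := H62.OW.rr_vlw (Yq G' B X W T Zc (up b v l) v) hp hok (tq hp τ₀ (up b v l))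
  obtain ⟨g, hg⟩ : ∃ g : Pl K ⊕ Fin A.g → So hp c (d + 1) Pa,
      ∀ j ∈ (Yq G' B X W T Zc (up b v l) v).Jf, g j ∈ Kj hp c Pa B v j ∧
        xq G' B X W T Zc τ₀ (up b v l) v j = il (g j) * x0 j := by
    refine ⟨fun j => if h : j ∈ (Yq G' B X W T Zc (up b v l) v).Jf then (hm j h).choose else 1,
      fun j hj => ?_⟩
    have h1 := (hm j hj).choose_spec
    beta_reduce
    rw [dif_pos hj]
    exact h1
  exact cel_fx1 hG hG' B X W T Zc hx Bf τ₀ e₀ b l hv rfl rfl hst.st hst.add hst.nd hst.bn hst.bp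
    hst.jl hok.t1 hR x0 g (fun j hj => (hg j hj).2) (fun j hj => kj_gm hO hj (hg j hj).1)
    (fun j hj => hst.D j hj _ _ (hg j hj).1) η (fun j hj => hη j hj _ (hg j hj).1) O2 hfz E hE E' hE'

/-- THE CELL IDENTITY in the notation of H48/OW/Cls -/
theorem cel_fq [NeZero q] [Finite P] [Finite (So hp c (d + 1) Pa)] {G : SG c (Sp Pa (Px c))}
    {G' : SG (cO hp c (d + 1)) (So hp c (d + 1) Pa)} (hG : ∀ x, G.y x = sy Pa x)
    (hG' : ∀ x, G'.y x = sy Pa x) (B : SD D Q A) (X : FD A P (Sp Pa (Px c))) (W : WF A) (T : ℝ)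
    (Zc : Finset (Pl K))
    (hx : ∀ f : Pl K → Option (Px c), (adf G B X W T Zc f).Jf →
      Du (Sp Pa (Px c)) q (d + 1) × Du (Sp Pa (Px c)) q (d + 1 + 1))
    (Bf : ∀ i j : ℕ, Gr (Sp Pa (Px c)) i →+ Gr (Sp Pa (Px c)) j →+ ZMod q)
    (τ₀ : Pl K → Sp Pa (Px c)) (e₀ : Pl K ⊕ Fin A.g → El2 (Sp Pa (Px c)) P q d)
    (b : Pl K → Option (Elb2 c (Sp Pa (Px c)) q d))
    (l : Fin (d + 1) → Elb2 c (Sp Pa (Px c)) q d) {v : Fin (d + 1) → Pl K}
    (hv : v ∈ H35.CF.Fr Zc (PPc X W T) b (d + 1)) {k Mw : ℕ}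
    (hok : (Yq G' B X W T Zc (up b v l) v).Okw p k Mw q)
    (hO : Own (owl hp c (d + 1)) (Yq G' B X W T Zc (up b v l) v) (H93.OW.ixv v))
    {psi : So hp c (d + 1) Pa → ZMod q}
    (hps : PK (P × Ci p (d + 1)) ((owl hp c (d + 1)).Kk Pa Finset.univ) psi (d + 1)) (hd : 2 ≤ d)
    (x0 : Pl K ⊕ Fin A.g → SP (So hp c (d + 1) Pa) (P × Ci p (d + 1)))
    (hm : ∀ j ∈ (Yq G' B X W T Zc (up b v l) v).Jf, ∃ g ∈ Kj hp c Pa B v j,
      xq G' B X W T Zc τ₀ (up b v l) v j = il g * x0 j)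
    (η : Pl K ⊕ Fin A.g → Du (So hp c (d + 1) Pa) q d × Du (So hp c (d + 1) Pa) q (d + 1))
    (hη : ∀ j ∈ (Yq G' B X W T Zc (up b v l) v).Jf, ∀ g ∈ Kj hp c Pa B v j,
      (if (Yq G' B X W T Zc (up b v l) v).pp j then (η j).1.ap (gk d g)
        else (η j).2.ap (gk (d + 1) g)) =
      (if (Yq G' B X W T Zc (up b v l) v).pp j then
          (ef2 e₀ (up b v l) j).1.1.ap (gz d ((owl hp c (d + 1)).ev Pa g))
        else (ef2 e₀ (up b v l) j).1.2.ap (gz (d + 1) ((owl hp c (d + 1)).ev Pa g))) +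
        psi (Dj (Yq G' B X W T Zc (up b v l) v) (tq hp τ₀ (up b v l)) x0 j g))
    (O2 : Pl K → Du (So hp c (d + 1) Pa) q (d + 1) → Prop)
    (hfz : (adx2 G B X W T Zc (up b v l)).Fz Bf (tf2 τ₀ (up b v l))
        ((adx2 G B X W T Zc (up b v l)).et2 (ef2 e₀ (up b v l))) ↔
      (∀ w ∈ W.l, (Yq G' B X W T Zc (up b v l) v).kk
        (fun j : (Yq G' B X W T Zc (up b v l) v).Jf => η j)
          (wd FreeGroup.of (Yq G' B X W T Zc (up b v l) v).W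
            ((Yq G' B X W T Zc (up b v l) v).bl w)) = 0) ∧
        ∀ w ∈ sp Zc (up b v l), PPc X W T w → O2 w ((Yq G' B X W T Zc (up b v l) v).kk
          (fun j : (Yq G' B X W T Zc (up b v l) v).Jf => η j) (W.Wv w)))
    (E : Pl K ⊕ Fin A.g → El (So hp c (d + 1) Pa) (P × Ci p (d + 1)) q d)
    (hE : ∀ j ∈ (Yq G' B X W T Zc (up b v l) v).Jf, (∀ k, Sum.inl (v k) ≠ j) →
      E j = (η j, rp (if (Yq G' B X W T Zc (up b v l) v).pp j then d else d + 1) (x0 j)))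
    (E' : Fin (d + 1) → El (So hp c (d + 1) Pa) (P × Ci p (d + 1)) q d)
    (hE' : ∀ k, E' k = (η (Sum.inl (v k)), rp d (x0 (Sum.inl (v k))))) :
    FX2 G B X W T Zc hx Bf τ₀ e₀ (up b v l) =
      ∑ κ : sp Zc b → Du (So hp c (d + 1) Pa) q (d + 1),
        ∑ κ' : Fin (d + 1) → Du (So hp c (d + 1) Pa) q (d + 1),
        (if (adx2 G B X W T Zc (up b v l)).rz
              ((adx2 G B X W T Zc (up b v l)).et2 (ef2 e₀ (up b v l))) = hx (lf2 (up b v l)) ∧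
            (∀ w : sp Zc b, PPc X W T w → O2 w (κ w)) ∧ ∀ k, O2 (v k) (κ' k) then
          rhc (adx2 G B X W T Zc (up b v l)) (Yq G' B X W T Zc (up b v l) v)
            (EV hp c (d + 1) Pa) psi (tq hp τ₀ (up b v l)) x0 (ef2 e₀ (up b v l)) η
          else 0) *
        FX G' B (fdo hp c (d + 1) X) W T Zc (fun w => (owl hp c (d + 1)).inc Pa (τ₀ w)) E
          (up (bO hp c (d + 1) Pa b E (k0 (sp Zc b) κ)) v (lO hp c (d + 1) Pa l E' κ')) :=
  cel_fq1 hG hG' B X W T Zc hx Bf τ₀ e₀ b l hv hok hO hps hd x0 hm η hη O2 (fun _ => hfz) E hE E' hE'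

end H70.OW
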