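import Mathlib

/-!
# [H70 OW PIG] places with equal types (MP_b39724_nt, theorem OW, chapter F)

`pig_pairs`: if every letter occurs at many places of `Z`, and the places have types in a finite set `Θ`, then there are different places `u (j, b)`, `j < k`, `b ∈ {0, 1}`, outside
`F`, with letter `a j`, such that `u (j, 0)` and `u (j, 1)` have the same type. `pig`: the same with one more place (letter `a₀`), indexed by any type `ι ≃ Option (Fin k × Bool)`.
-/

set_option autoImplicit false

open scoped Classical

noncomputable section

namespace H70.OW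

theorem pig_pairs {V A Θ : Type} [Fintype Θ] (Z : Finset V) (lab : V → Option A) (T : V → Θ)
    (R : ℕ) (hR : ∀ b : A, R ≤ (Z.filter fun v => lab v = some b).card) : ∀ (k : ℕ)
    (a : Fin k → A) (F : Finset V), F.card + 2 * k + Fintype.card Θ ≤ R + 1 →
    ∃ u : Fin k × Bool → V, Function.Injective u ∧
      (∀ x, u x ∈ Z ∧ u x ∉ F ∧ lab (u x) = some (a x.1)) ∧
      ∀ j, T (u (j, false)) = T (u (j, true)) := by
  intro k
  induction k with
  | zero =>
    intro a F _
    exact ⟨fun x => x.1.elim0, fun x => x.1.elim0, fun x => x.1.elim0, fun j => j.elim0⟩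
  | succ k ih =>
    intro a F hF
    have h1 : Fintype.card Θ < ((Z.filter fun v => lab v = some (a 0)) \ F).card := by
      have h2 := hR (a 0)
      have h3 := Finset.le_card_sdiff F (Z.filter fun v => lab v = some (a 0))
      omega
    obtain ⟨w, hw, w', hw', hne, hT⟩ := Finset.exists_ne_map_eq_of_card_lt_of_maps_to
      (t := (Finset.univ : Finset Θ)) (by rw [Finset.card_univ]; exact h1)
      (fun v _ => Finset.mem_univ (T v))
    rw [Finset.mem_sdiff, Finset.mem_filter] at hw hw'
    have hF' : (insert w (insert w' F)).card ≤ F.card + 2 := by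
      refine (Finset.card_insert_le _ _).trans ?_
      have := Finset.card_insert_le w' F
      omega
    obtain ⟨u, hu1, hu2, hu3⟩ := ih (fun j => a j.succ) (insert w (insert w' F)) (by omega)
    have hu4 : ∀ x, u x ≠ w ∧ u x ≠ w' ∧ u x ∉ F := by
      intro x
      have := (hu2 x).2.1
      rw [Finset.mem_insert, Finset.mem_insert, not_or, not_or] at this
      exact this
    refine ⟨fun x => Fin.cases (motive := fun _ => V) (if x.2 then w' else w)
      (fun j => u (j, x.2)) x.1, ?_, ?_, ?_⟩
    · rintro ⟨i, b⟩ ⟨j, b'⟩ h
      dsimp only at h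
      induction i using Fin.cases with
      | zero =>
        induction j using Fin.cases with
        | zero =>
          rw [Fin.cases_zero, Fin.cases_zero] at h
          cases b <;> cases b' <;> simp at h ⊢
          · exact hne h
          · exact hne h.symm
        | succ j =>
          rw [Fin.cases_zero, Fin.cases_succ] at h
          exfalso
          cases b
          · exact (hu4 (j, b')).1 (by simpa using h.symm)
          · exact (hu4 (j, b')).2.1 (by simpa using h.symm)
      | succ i =>
        induction j using Fin.cases with
        | zero =>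
          rw [Fin.cases_zero, Fin.cases_succ] at h
          exfalso
          cases b'
          · exact (hu4 (i, b)).1 (by simpa using h)
          · exact (hu4 (i, b)).2.1 (by simpa using h)
        | succ j =>
          rw [Fin.cases_succ, Fin.cases_succ] at h
          have := hu1 h
          rw [Prod.mk.injEq] at this
          rw [this.1, this.2]
    · rintro ⟨i, b⟩
      dsimp only
      induction i using Fin.cases with
      | zero =>
        rw [Fin.cases_zero]
        cases b
        · exact ⟨hw.1.1, hw.2, hw.1.2⟩
        · exact ⟨hw'.1.1, hw'.2, hw'.1.2⟩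
      | succ i =>
        rw [Fin.cases_succ]
        exact ⟨(hu2 (i, b)).1, (hu4 (i, b)).2.2, (hu2 (i, b)).2.2⟩
    · intro j
      dsimp only
      induction j using Fin.cases with
      | zero =>
        rw [Fin.cases_zero, Fin.cases_zero]
        exact hT
      | succ j =>
        rw [Fin.cases_succ, Fin.cases_succ]
        exact hu3 j

theorem pig {V A Θ ι : Type} [Fintype Θ] (Z : Finset V) (lab : V → Option A) (T : V → Θ)
    (k : ℕ) (hR : ∀ b : A, Fintype.card Θ + 2 * k + 1 ≤ (Z.filter fun v => lab v = some b).card)
    (e : ι ≃ Option (Fin k × Bool)) (a₀ : A) (a : Fin k → A) :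
    ∃ v : ι → V, Function.Injective v ∧ (∀ i, v i ∈ Z) ∧
      lab (v (e.symm none)) = some a₀ ∧
      (∀ j b, lab (v (e.symm (some (j, b)))) = some (a j)) ∧
      ∀ j, T (v (e.symm (some (j, false)))) = T (v (e.symm (some (j, true)))) := by
  have h1 : 0 < (Z.filter fun v => lab v = some a₀).card := by
    have := hR a₀
    omega
  obtain ⟨v₀, hv₀⟩ := Finset.card_pos.1 h1
  rw [Finset.mem_filter] at hv₀
  obtain ⟨u, hu1, hu2, hu3⟩ := pig_pairs Z lab T _ hR k a {v₀} (by
    rw [Finset.card_singleton]
    omega)
  refine ⟨fun i => (e i).elim v₀ u, ?_, ?_, ?_, ?_, ?_⟩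
  · intro i j h
    dsimp only at h
    apply e.injective
    rcases hi : e i with _ | x
    · rcases hj : e j with _ | y
      · rfl
      · rw [hi, hj] at h
        exact absurd (Finset.mem_singleton.2 h.symm) (hu2 y).2.1
    · rcases hj : e j with _ | y
      · rw [hi, hj] at h
        exact absurd (Finset.mem_singleton.2 h) (hu2 x).2.1
      · rw [hi, hj] at h
        rw [hu1 h]
  · intro i
    dsimp only
    rcases e i with _ | x
    · exact hv₀.1
    · exact (hu2 x).1
  · dsimp only
    rw [Equiv.apply_symm_apply]
    exact hv₀.2
  · intro j b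
    dsimp only
    rw [Equiv.apply_symm_apply]
    exact (hu2 (j, b)).2.2
  · intro j
    dsimp only
    rw [Equiv.apply_symm_apply, Equiv.apply_symm_apply]
    exact hu3 j

end H70.OW
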